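import Mathlib
import Pool.Agent.Helper98.EY.StmtsC

set_option autoImplicit false

/-!
# EY, module DT4: deterministic theorem 4
-/

namespace Pool.Agent.Helper98.EX

open Finset

variable {N : ℕ}

/-! ### the probability of not hitting is decreasing in time -/

theorem dt4_nohit_nn {r l : ℕ → ℝ} (h : Adm N r l) (S : Finset ℕ) (T : Set (Cfg N)) (m : ℕ)
    (η : Cfg N) : 0 ≤ nohit r l S T m η ∧ nohit r l S T m η ≤ 1 - ind T η := by
  induction m generalizing η with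
  | zero =>
    have h1 := ind_le_one T η
    unfold nohit
    exact ⟨by linarith, le_rfl⟩
  | succ m ih =>
    have h1 := ind_le_one T η
    have h2 : 0 ≤ stp r l S (nohit r l S T m) η := stp_nonneg h (fun ζ => (ih ζ).1) η
    have h3 : stp r l S (nohit r l S T m) η ≤ 1 := by
      have := stp_mono (S := S) h (f := nohit r l S T m) (g := fun _ => 1)
        (fun ζ => (ih ζ).2.trans (by linarith [ind_nonneg T ζ])) η
      rwa [stp_const] at this
    unfold nohit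
    exact ⟨mul_nonneg (by linarith) h2, by nlinarith⟩

theorem dt4_nohit_succ {r l : ℕ → ℝ} (h : Adm N r l) (S : Finset ℕ) (T : Set (Cfg N)) (m : ℕ)
    (η : Cfg N) : nohit r l S T (m + 1) η ≤ nohit r l S T m η := by
  induction m generalizing η with
  | zero => exact (dt4_nohit_nn h S T 1 η).2
  | succ m ih =>
    have h1 := ind_le_one T η
    have h2 := stp_mono (S := S) h ih η
    show (1 - ind T η) * stp r l S (nohit r l S T (m + 1)) η ≤
      (1 - ind T η) * stp r l S (nohit r l S T m) η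
    exact mul_le_mul_of_nonneg_left h2 (by linarith)

theorem dt4_nohit_anti {r l : ℕ → ℝ} (h : Adm N r l) (S : Finset ℕ) (T : Set (Cfg N))
    (η : Cfg N) : Antitone fun m => nohit r l S T m η :=
  antitone_nat_of_succ_le fun m => dt4_nohit_succ h S T m η

/-- large `N` -/
theorem dt4_large {Λ K0 c' : ℝ} (hK0 : 1 ≤ K0) (hc' : 0 < c') :
    ∃ N0 : ℕ, ∀ N : ℕ, N0 ≤ N → 3 ≤ N ∧ Λ ≤ Real.log N ∧
      K0 * Real.log N ^ 1000 ≤ (N : ℝ) ^ (1 / 100 : ℝ) ∧ (N : ℝ) ^ (-3 : ℝ) ≤ c' := by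
  have t1 : ∀ s : ℝ, 0 < s →
      ∀ᶠ n : ℕ in Filter.atTop, K0 * Real.log n ^ 1000 ≤ (n : ℝ) ^ s := by
    intro s hs
    have h1 := (isLittleO_log_rpow_rpow_atTop (1000 : ℝ) hs).def (by positivity : 0 < 1 / K0)
    have h2 := (tendsto_natCast_atTop_atTop (R := ℝ)).eventually h1
    filter_upwards [h2, Filter.eventually_ge_atTop 1] with n hn hn1
    have hn1' : (1 : ℝ) ≤ n := by exact_mod_cast hn1
    have hl : 0 ≤ Real.log n := Real.log_nonneg hn1'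
    rw [Real.norm_of_nonneg (Real.rpow_nonneg hl _),
      Real.norm_of_nonneg (Real.rpow_nonneg (by linarith) _)] at hn
    have e : Real.log (n : ℝ) ^ (1000 : ℝ) = Real.log n ^ 1000 := by
      exact_mod_cast Real.rpow_natCast (Real.log n) 1000
    rw [e] at hn
    have h3 := mul_le_mul_of_nonneg_left hn (by linarith : 0 ≤ K0)
    have e2 : K0 * (1 / K0 * (n : ℝ) ^ s) = (n : ℝ) ^ s := by
      field_simp
    rwa [e2] at h3
  have t2 : ∀ᶠ n : ℕ in Filter.atTop, (n : ℝ) ^ (-3 : ℝ) ≤ c' := by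
    have h1 := (tendsto_rpow_neg_atTop (by norm_num : (0 : ℝ) < 3)).comp
      (tendsto_natCast_atTop_atTop (R := ℝ))
    filter_upwards [h1.eventually (ge_mem_nhds hc')] with n hn
    exact hn
  have t3 : ∀ᶠ n : ℕ in Filter.atTop, Λ ≤ Real.log n :=
    (Real.tendsto_log_atTop.comp (tendsto_natCast_atTop_atTop (R := ℝ))).eventually
      (Filter.eventually_ge_atTop Λ)
  obtain ⟨N0, hN0⟩ := Filter.eventually_atTop.1 ((Filter.eventually_ge_atTop 3).and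
    ((t3).and ((t1 (1 / 100) (by norm_num)).and t2)))
  exact ⟨N0, fun N hN => hN0 N hN⟩

/-- the three stages with the modified rates, compared with the true dynamics -/
theorem dt4_stages {k m1 m2 m3 : ℕ} {r l l' : ℕ → ℝ} {σ1 σ2 σ3 : ℕ → Finset ℕ} {a b c : ℝ}
    {A B G : Set (Cfg N)} {z : Cfg N}
    (hC : ST_CENS) (hR : ST_RATE) (hk : k ≤ N) (hl : Adm N r l) (hl' : Adm N r l')
    (hll : ∀ x, 1 ≤ x → x < N → l x ≤ l' x) (hσ1 : ∀ i, σ1 i ⊆ full N)
    (hσ2 : ∀ i, σ2 i ⊆ full N) (hσ3 : ∀ i, σ3 i ⊆ full N) (hb : 0 ≤ b) (hc : 0 ≤ c)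
    (h1 : pr r l' σ1 m1 Aᶜ (bot N k) ≤ a)
    (h2 : ∀ ξ : Cfg N, ht ξ 0 = k → ξ ∈ A → pr r l' σ2 m2 Bᶜ ξ ≤ b)
    (h3 : ∀ ξ : Cfg N, ht ξ 0 = k → ξ ∈ B → pr r l' σ3 m3 Gᶜ ξ ≤ c)
    (hG : ∀ ξ, ξ ∈ G → hle 0 z ξ) :
    pr r l (fun _ => full N) (m1 + (m2 + m3)) {ξ | ¬ hle 0 z ξ} (bot N k) ≤ a + (b + c) := by
  set F : Set (Cfg N) := {ξ | hle 0 z ξ} with hF
  have eF : {ξ : Cfg N | ¬ hle 0 z ξ} = Fᶜ := rfl
  have hInc : Inc k (ind F) := by
    apply pr_Inc_ind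
    intro η ξ _ _ h5 h6
    exact hle_trans h6 h5
  rw [eF]
  set σ : ℕ → Finset ℕ := cat m1 σ1 (cat m2 σ2 σ3) with hσ
  have s0 : pr r l' σ (m1 + (m2 + m3)) Gᶜ (bot N k) ≤ a + (b + c) := by
    apply pr_cat_fail hl' (k := k) (A := A) σ1 (cat m2 σ2 σ3) m1 (m2 + m3) (ht_bot_zero hk) h1
      (by linarith)
    intro ξ h4 h5
    exact pr_cat_fail hl' (k := k) (A := B) σ2 σ3 m2 m3 h4 (h2 ξ h4 h5) hc h3
  have s1 : pr r l' σ (m1 + (m2 + m3)) Fᶜ (bot N k) ≤ pr r l' σ (m1 + (m2 + m3)) Gᶜ (bot N k) := by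
    apply pr_mono hl'
    intro ξ h4 h5
    exact h4 (hG ξ h5)
  have s2 : pr r l (fun _ => full N) (m1 + (m2 + m3)) Fᶜ (bot N k) ≤
      pr r l' σ (m1 + (m2 + m3)) Fᶜ (bot N k) := by
    rw [pr_compl, pr_compl]
    have e1 := hC N k r l' (fun _ => full N) σ (m1 + (m2 + m3)) (ind F) hk hl'
      (by
        intro i
        rw [hσ]
        unfold cat
        split_ifs
        · exact hσ1 _
        · exact hσ2 _
        · exact hσ3 _) hInc
    have e2 := hR N k r l l' (fun _ => full N) (m1 + (m2 + m3)) (ind F) (bot N k) hl hl' hll hInc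
      (ht_bot_zero hk)
    unfold pr
    linarith
  linarith

/-- duration of the first transfer -/
theorem dt4_trans {L Nr g C q el S t dd m K : ℝ} (hL : 1 ≤ L) (hN : 1 ≤ Nr) (hC : 0 ≤ C)
    (hdd : 0 < dd) (hNg : Nr ≤ g) (hS : S ≤ 2 * ((C + 1) * Nr)) (hq : q ≤ 2 * L ^ 715)
    (hel0 : 0 ≤ el) (hel : el ≤ 2 * g) (ht : Nr ^ 2 / L ^ 200 ≤ t)
    (hm : m ≤ 4 * Nr * (8 * (S + (3 * q + 4) * el)))
    (hK : 16 * (2 * (C + 1) + 20) / dd ≤ K) (hKg : K * L ^ 1000 * g ≤ Nr ^ 2) :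
    m ≤ dd * (t * (2 * Nr)) := by
  have hL0 : 0 < L := by linarith
  have hp : 1 ≤ L ^ 715 := one_le_pow₀ hL
  have hg0 : 0 < g := by linarith
  have h1 : (3 * q + 4) * el ≤ (10 * L ^ 715) * (2 * g) :=
    mul_le_mul (by linarith) hel hel0 (by positivity)
  have h2 : S ≤ 2 * (C + 1) * (L ^ 715 * g) := by
    have h3 : Nr ≤ L ^ 715 * g := by nlinarith
    have h4 := mul_le_mul_of_nonneg_left h3 (by positivity : 0 ≤ 2 * (C + 1))
    linarith
  have h5 : S + (3 * q + 4) * el ≤ (2 * (C + 1) + 20) * (L ^ 715 * g) := by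
    linarith
  have h6 : m ≤ (2 * Nr) * (16 * (2 * (C + 1) + 20) * (L ^ 715 * g)) := by
    have h7 : 4 * Nr * (8 * (S + (3 * q + 4) * el)) ≤
        4 * Nr * (8 * ((2 * (C + 1) + 20) * (L ^ 715 * g))) := by
      apply mul_le_mul_of_nonneg_left _ (by linarith)
      linarith
    linarith
  have h8 : 16 * (2 * (C + 1) + 20) * (L ^ 715 * g) ≤ dd * t := by
    have h9 : 16 * (2 * (C + 1) + 20) ≤ dd * K := by
      rw [div_le_iff₀ hdd] at hK
      linarith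
    have h10 : 16 * (2 * (C + 1) + 20) * (L ^ 715 * g) ≤ dd * K * (L ^ 715 * g) :=
      mul_le_mul_of_nonneg_right h9 (by positivity)
    refine h10.trans ?_
    have h11 : K * (L ^ 715 * g) ≤ t := by
      refine le_trans ?_ ht
      rw [le_div_iff₀ (by positivity)]
      refine le_trans ?_ hKg
      have h12 : L ^ 715 * L ^ 200 ≤ L ^ 1000 := by
        rw [← pow_add]
        exact pow_le_pow_right₀ hL (by norm_num)
      have hK0 : 0 ≤ K := le_trans (by positivity) hK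
      have h13 := mul_le_mul_of_nonneg_left h12 (by positivity : 0 ≤ K * g)
      have e1 : K * (L ^ 715 * g) * L ^ 200 = K * g * (L ^ 715 * L ^ 200) := by ring
      have e2 : K * L ^ 1000 * g = K * g * L ^ 1000 := by ring
      rw [e1, e2]
      exact h13
    have h14 := mul_le_mul_of_nonneg_left h11 hdd.le
    linarith
  have h15 := mul_le_mul_of_nonneg_left h8 (by linarith : 0 ≤ 2 * Nr)
  linarith

/-- duration of the second stage -/
theorem dt4_st0 {L Nr t dd m ta K : ℝ} (hL : 1 ≤ L) (hN : 1 ≤ Nr) (hdd : 0 < dd)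
    (hta : ta ≤ 8 * Nr * L ^ 12 * (Nr / L ^ 220) + 1) (hm : m ≤ 6 * Nr * ta)
    (ht : Nr ^ 2 / L ^ 200 ≤ t) (hLd : 48 / dd ≤ L) (hK : 6 / dd ≤ K)
    (hKg : K * L ^ 1000 ≤ Nr) : m ≤ dd * (t * (2 * Nr)) := by
  have hL0 : 0 < L := by linarith
  have e1 : 8 * Nr * L ^ 12 * (Nr / L ^ 220) = 8 * Nr ^ 2 / L ^ 208 := by
    field_simp
  rw [e1] at hta
  have h1 : m ≤ (2 * Nr) * (24 * Nr ^ 2 / L ^ 208 + 3) := by
    have h2 : 6 * Nr * ta ≤ 6 * Nr * (8 * Nr ^ 2 / L ^ 208 + 1) :=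
      mul_le_mul_of_nonneg_left hta (by linarith)
    have e2 : 6 * Nr * (8 * Nr ^ 2 / L ^ 208 + 1) = (2 * Nr) * (24 * Nr ^ 2 / L ^ 208 + 3) := by
      ring
    linarith
  have h3 : 24 * Nr ^ 2 / L ^ 208 ≤ dd / 2 * (Nr ^ 2 / L ^ 200) := by
    rw [div_le_iff₀ (by positivity)]
    have e3 : dd / 2 * (Nr ^ 2 / L ^ 200) * L ^ 208 = dd / 2 * Nr ^ 2 * L ^ 8 := by
      field_simp
    rw [e3]
    have h4 : 48 ≤ dd * L := by
      rw [div_le_iff₀ hdd] at hLd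
      linarith
    have h5 : L ≤ L ^ 8 := by
      calc L = L ^ 1 := (pow_one L).symm
        _ ≤ L ^ 8 := pow_le_pow_right₀ hL (by norm_num)
    have h6 : 48 ≤ dd * L ^ 8 := h4.trans (mul_le_mul_of_nonneg_left h5 hdd.le)
    have h7 := mul_le_mul_of_nonneg_right h6 (by positivity : 0 ≤ Nr ^ 2 / 2)
    linarith
  have h8 : 3 ≤ dd / 2 * (Nr ^ 2 / L ^ 200) := by
    have h9 : 6 / dd * L ^ 200 ≤ Nr ^ 2 := by
      have h10 : 6 / dd * L ^ 200 ≤ K * L ^ 1000 :=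
        mul_le_mul hK (pow_le_pow_right₀ hL (by norm_num)) (by positivity)
          (le_trans (by positivity) hK)
      have h11 : Nr ≤ Nr ^ 2 := by nlinarith
      linarith
    have h12 : 6 / dd ≤ Nr ^ 2 / L ^ 200 := by
      rw [le_div_iff₀ (by positivity)]
      exact h9
    rw [div_le_iff₀ hdd] at h12
    linarith
  have h13 : 24 * Nr ^ 2 / L ^ 208 + 3 ≤ dd * t := by
    have h14 := mul_le_mul_of_nonneg_left ht hdd.le
    linarith
  have h15 := mul_le_mul_of_nonneg_left h13 (by linarith : 0 ≤ 2 * Nr)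
  linarith

/-- duration of the last stage -/
theorem dt4_fin {L Nr g C Cf n el S t dd K : ℝ} (hL : 1 ≤ L) (hN : 1 ≤ Nr) (hC : 0 ≤ C)
    (hCf : 0 ≤ Cf) (hdd : 0 < dd) (hNg : Nr ≤ g) (hS : S ≤ (C + 1) * Nr) (hn : n ≤ 2 * L ^ 720)
    (hel0 : 0 ≤ el) (hel : el ≤ 2 * g) (ht : Nr ^ 2 / L ^ 200 ≤ t)
    (hK : (16 * (C + 1) + 352 + Cf) / dd ≤ K) (hKg : K * L ^ 1000 * g ≤ Nr ^ 2) :
    2 * Nr * (16 * (S + (3 * n + 5) * el) + Cf) ≤ dd * (t * (2 * Nr)) := by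
  have hL0 : 0 < L := by linarith
  have hp : 1 ≤ L ^ 720 := one_le_pow₀ hL
  have hg0 : 0 < g := by linarith
  have h1 : (3 * n + 5) * el ≤ (11 * L ^ 720) * (2 * g) :=
    mul_le_mul (by linarith) hel hel0 (by positivity)
  have h3 : Nr ≤ L ^ 720 * g := by nlinarith
  have h2 : S ≤ (C + 1) * (L ^ 720 * g) := by
    have h4 := mul_le_mul_of_nonneg_left h3 (by positivity : 0 ≤ (C + 1))
    linarith
  have h5 : Cf ≤ Cf * (L ^ 720 * g) := by
    have h4 := mul_le_mul_of_nonneg_left (hN.trans h3) hCf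
    linarith
  have h6 : 16 * (S + (3 * n + 5) * el) + Cf ≤ (16 * (C + 1) + 352 + Cf) * (L ^ 720 * g) := by
    linarith
  have h8 : (16 * (C + 1) + 352 + Cf) * (L ^ 720 * g) ≤ dd * t := by
    have h9 : (16 * (C + 1) + 352 + Cf) ≤ dd * K := by
      rw [div_le_iff₀ hdd] at hK
      linarith
    have h10 : (16 * (C + 1) + 352 + Cf) * (L ^ 720 * g) ≤ dd * K * (L ^ 720 * g) :=
      mul_le_mul_of_nonneg_right h9 (by positivity)
    refine h10.trans ?_
    have h11 : K * (L ^ 720 * g) ≤ t := by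
      refine le_trans ?_ ht
      rw [le_div_iff₀ (by positivity)]
      refine le_trans ?_ hKg
      have h12 : L ^ 720 * L ^ 200 ≤ L ^ 1000 := by
        rw [← pow_add]
        exact pow_le_pow_right₀ hL (by norm_num)
      have hK0 : 0 ≤ K := le_trans (by positivity) hK
      have h13 := mul_le_mul_of_nonneg_left h12 (by positivity : 0 ≤ K * g)
      have e1 : K * (L ^ 720 * g) * L ^ 200 = K * g * (L ^ 720 * L ^ 200) := by ring
      have e2 : K * L ^ 1000 * g = K * g * L ^ 1000 := by ring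
      rw [e1, e2]
      exact h13
    have h14 := mul_le_mul_of_nonneg_left h11 hdd.le
    linarith
  have h15 := mul_le_mul_of_nonneg_left (h6.trans h8) (by linarith : 0 ≤ 2 * Nr)
  linarith

/-- reserves -/
theorem dt4_res {N p q w : ℕ} (hL : 2 ≤ Real.log N) (hp : (p : ℝ) ≤ Real.log N ^ 466)
    (hw : (w : ℝ) ≤ Real.log N ^ 2) (hq : Real.log N ^ 715 ≤ q) : (p + 2) * rs N ≤ q - w := by
  set L : ℝ := Real.log N with hLd
  have hL1 : 1 ≤ L := by linarith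
  have h1 : (rs N : ℝ) ≤ 5 * L ^ 243 := by
    have h2 := (Nat.ceil_lt_add_one (a := 2 * L ^ 243) (by positivity)).le
    have h3 : 1 ≤ L ^ 243 := one_le_pow₀ hL1
    unfold rs
    push_cast
    linarith
  have h4 : ((p : ℝ) + 2) ≤ 3 * L ^ 466 := by
    have h3 : 1 ≤ L ^ 466 := one_le_pow₀ hL1
    linarith
  have h5 : ((p : ℝ) + 2) * rs N ≤ 15 * L ^ 709 := by
    have h6 : ((p : ℝ) + 2) * rs N ≤ (3 * L ^ 466) * (5 * L ^ 243) :=
      mul_le_mul h4 h1 (Nat.cast_nonneg _) (by positivity)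
    have e : (3 * L ^ 466) * (5 * L ^ 243) = 15 * L ^ 709 := by ring
    linarith
  have h7 : L ^ 2 ≤ L ^ 709 := pow_le_pow_right₀ hL1 (by norm_num)
  have h8 : 16 * L ^ 709 ≤ L ^ 715 := by
    have h9 : (2 : ℝ) ^ 6 ≤ L ^ 6 := pow_le_pow_left₀ (by norm_num) hL 6
    have e : L ^ 715 = L ^ 6 * L ^ 709 := by ring
    rw [e]
    apply mul_le_mul_of_nonneg_right _ (by positivity)
    norm_num at h9
    linarith
  have h10 : (((p + 2) * rs N + w : ℕ) : ℝ) ≤ q := by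
    push_cast
    linarith
  have h11 : (p + 2) * rs N + w ≤ q := by exact_mod_cast h10
  omega

theorem st_DT4 (hT : ST_TRANS) (hS0 : ST_ST0) (hH : ST_HZN) (hJ : ST_MSJ) (hZ : ST_ENDZ)
    (hCU : ST_CAPUP) (hF : ST_FIN) (hSEN : ST_SEN) (hG : ST_GS) (hC : ST_CENS) (hR : ST_RATE) :
    ST_DT4 := by
  intro ε δ γ η0 Cs C1 c1 c c' m0 hε hε1 hδ hδ1 hγ hγ1 hη hη1 hCs hC1 hc1 hc11 hc hc'
  set dd : ℝ := δ / 60 with hdd
  have hdd0 : 0 < dd := by positivity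
  have hdd1 : dd ≤ 1 / 20 := by rw [hdd]; linarith
  have hγ1' : γ ≤ 1 := by linarith
  obtain ⟨N1, Cf, hCf, hF'⟩ := hF γ η0 (Cs + 1) c1 (ε / 16) m0 hγ hγ1' hη hη1 (by linarith) hc1
    hc11 (by positivity)
  obtain ⟨N2, hG'⟩ := hG γ hγ hγ1'
  obtain ⟨N3, hT'⟩ := hT γ η0 Cs hγ hγ1' hη hη1 hCs
  obtain ⟨N4, hS'⟩ := hS0 C1 c hC1 hc
  obtain ⟨N5, hH'⟩ := hH c hc
  obtain ⟨N6, hJ'⟩ := hJ C1 dd c' hC1 hdd0 hdd1 hc'
  obtain ⟨N7, hZ'⟩ := hZ c hc
  obtain ⟨N8, hCU'⟩ := hCU ε dd c C1 m0 hε hdd0 (by linarith) hc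
  obtain ⟨N9, hSEN'⟩ := hSEN
  have q1 : 0 ≤ 4 / c := by positivity
  have q2 : 0 ≤ 16 * (2 * (C1 + 1) + 20) / dd := by positivity
  have q3 : 0 ≤ (16 * (C1 + 1) + 352 + Cf) / dd := by positivity
  have q4 : 0 ≤ 6 / dd := by positivity
  have q5 : 0 ≤ 48 / dd := by positivity
  obtain ⟨N10, hL10⟩ := dt4_large (Λ := 2 + 48 / dd)
    (K0 := 1 + 4 / c + 16 * (2 * (C1 + 1) + 20) / dd + (16 * (C1 + 1) + 352 + Cf) / dd + 6 / dd)
    (c' := ε / 64) (by linarith) (by positivity)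
  refine ⟨max (max (max N1 N2) (max N3 N4)) (max (max (max N5 N6) (max N7 N8)) (max N9 N10)), ?_⟩
  intro N k r l w m1 as p bb hN hck hkc hE hBE hSep has hNq hNq' hcap hpr ht1 ht2
  obtain ⟨n3, lΛ, l1000, pe⟩ := hL10 N (by omega)
  have hk := hE.kN
  have hNr : (3 : ℝ) ≤ N := by exact_mod_cast n3
  have hNpos : (0 : ℝ) < N := by linarith
  have hN1 : (1 : ℝ) ≤ N := by linarith
  set L : ℝ := Real.log N with hLdef
  have hL2 : 2 ≤ L := by linarith
  have hL0 : 0 < L := by linarith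
  have hL1 : 1 ≤ L := by linarith
  set K0 : ℝ := 1 + 4 / c + 16 * (2 * (C1 + 1) + 20) / dd + (16 * (C1 + 1) + 352 + Cf) / dd +
    6 / dd with hK0
  have hK1 : 1 ≤ K0 := by linarith
  have hKN : K0 * L ^ 1000 ≤ N := by
    refine l1000.trans ?_
    calc (N : ℝ) ^ (1 / 100 : ℝ) ≤ (N : ℝ) ^ (1 : ℝ) :=
          Real.rpow_le_rpow_of_exponent_le hN1 (by norm_num)
      _ = N := Real.rpow_one _
  -- the power of N
  set g : ℝ := (N : ℝ) ^ (26 / 25 : ℝ) with hg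
  have hg0 : 0 < g := Real.rpow_pos_of_pos hNpos _
  have hNg : (N : ℝ) ≤ g := by
    calc (N : ℝ) = (N : ℝ) ^ (1 : ℝ) := (Real.rpow_one _).symm
      _ ≤ g := Real.rpow_le_rpow_of_exponent_le hN1 (by norm_num)
  have hKg : K0 * L ^ 1000 * g ≤ (N : ℝ) ^ 2 := by
    have h1 : K0 * L ^ 1000 * g ≤ (N : ℝ) ^ (1 / 100 : ℝ) * g :=
      mul_le_mul_of_nonneg_right l1000 hg0.le
    refine h1.trans ?_
    rw [hg, ← Real.rpow_add hNpos, ← Real.rpow_natCast]
    exact Real.rpow_le_rpow_of_exponent_le hN1 (by norm_num)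
  -- ell
  have has1 := hE.as1
  set el : ℝ := (N : ℝ) ^ γ * (as + 1) with hel
  have hNγ : 0 < (N : ℝ) ^ γ := Real.rpow_pos_of_pos hNpos _
  have hel0 : 0 ≤ el := by positivity
  have helg : el ≤ 2 * g := by
    have h1 : (1 : ℝ) ≤ (N : ℝ) ^ (1 + 3 * γ) := Real.one_le_rpow hN1 (by positivity)
    have h2 : as + 1 ≤ 2 * (N : ℝ) ^ (1 + 3 * γ) := by linarith
    have h3 : el ≤ (N : ℝ) ^ γ * (2 * (N : ℝ) ^ (1 + 3 * γ)) :=
      mul_le_mul_of_nonneg_left h2 hNγ.le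
    have h4 : (N : ℝ) ^ γ * (2 * (N : ℝ) ^ (1 + 3 * γ)) = 2 * (N : ℝ) ^ (γ + (1 + 3 * γ)) := by
      rw [Real.rpow_add hNpos γ (1 + 3 * γ)]
      ring
    have h5 : (N : ℝ) ^ (γ + (1 + 3 * γ)) ≤ g :=
      Real.rpow_le_rpow_of_exponent_le hN1 (by linarith)
    linarith
  set t : ℝ := (m1 : ℝ) / (2 * N) with htd
  have ht0 : 0 ≤ t := by positivity
  have hm1 : (m1 : ℝ) = t * (2 * N) := by
    rw [htd]
    field_simp
  -- q
  set q : ℕ := ⌈L ^ 715⌉₊ with hq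
  have hql : L ^ 715 ≤ q := Nat.le_ceil _
  have hqu : (q : ℝ) ≤ 2 * L ^ 715 := by
    have h1 := (Nat.ceil_lt_add_one (a := L ^ 715) (by positivity)).le
    have h2 : 1 ≤ L ^ 715 := one_le_pow₀ hL1
    rw [hq]
    linarith
  have hwl := hE.wlog
  have h3w : 3 * w ≤ q := by
    have h1 : 3 * (w : ℝ) ≤ q := by
      have h2 : 3 * L ^ 2 ≤ L ^ 715 := by
        have e : L ^ 715 = L ^ 713 * L ^ 2 := by ring
        rw [e]
        apply mul_le_mul_of_nonneg_right _ (by positivity)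
        calc (3 : ℝ) ≤ 2 ^ 2 := by norm_num
          _ ≤ L ^ 2 := pow_le_pow_left₀ (by norm_num) hL2 2
          _ ≤ L ^ 713 := pow_le_pow_right₀ hL1 (by norm_num)
      linarith
    exact_mod_cast h1
  have hq1 : 1 ≤ q := by
    have h1 : (1 : ℝ) ≤ q := (one_le_pow₀ hL1).trans hql
    exact_mod_cast h1
  have hcN : 4 * L ^ 720 ≤ c * N := by
    have h1 : 4 / c * L ^ 720 ≤ N := by
      refine le_trans ?_ hKN
      exact mul_le_mul (by linarith) (pow_le_pow_right₀ hL1 (by norm_num)) (by positivity)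
        (by linarith)
    have e : 4 / c * L ^ 720 = 4 * L ^ 720 / c := by ring
    rw [e, div_le_iff₀ hc] at h1
    linarith
  have hp715 : L ^ 715 ≤ L ^ 720 := pow_le_pow_right₀ hL1 (by norm_num)
  have h2qk : 2 * q ≤ k := by
    have h1 : 2 * (q : ℝ) ≤ k := by linarith
    exact_mod_cast h1
  have h2qkN : 2 * q + k ≤ N := by
    have h1 : 2 * (q : ℝ) + k ≤ N := by linarith
    exact_mod_cast h1
  set n : ℕ := ⌈L ^ 720⌉₊ with hn
  have hnu : (n : ℝ) ≤ 2 * L ^ 720 := by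
    have h1 := (Nat.ceil_lt_add_one (a := L ^ 720) (by positivity)).le
    have h2 : 1 ≤ L ^ 720 := one_le_pow₀ hL1
    rw [hn]
    linarith
  have hn1 : 1 ≤ n := by
    have h1 : (1 : ℝ) ≤ n := (one_le_pow₀ hL1).trans (Nat.le_ceil _)
    exact_mod_cast h1
  have hnk : n ≤ k := by
    have h1 : (n : ℝ) ≤ k := by
      have : 0 ≤ L ^ 720 := by positivity
      linarith
    exact_mod_cast h1
  have hnkN : n + k ≤ N := by
    have h1 : (n : ℝ) + k ≤ N := by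
      have : 0 ≤ L ^ 720 := by positivity
      linarith
    exact_mod_cast h1
  have hmodl : ∀ x, 1 ≤ x → x < N → l x ≤ modl N l x := fun x _ _ => le_max_left _ _
  have hGE := hBE.ge
  -- streaming environments
  obtain ⟨-, ⟨hs1, hs2⟩, hs3⟩ := hSEN' N k r l w m0 η0 as γ Cs C1 c1 (ε / 32) (by omega) hη hE
  have hw1 := hE.w1
  have E1 := hs3 (k - q) (N - q) N hNq' (by omega) (by omega) (by omega) (by omega)
  have E2 := hs3 0 q k hNq (by omega) (by omega) (by omega) (by omega)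
  -- stage 1
  obtain ⟨σ1, mT, hσ1, hmT, hprT⟩ := hT' N k q w r (modl N l) (as + 1) el (by omega) h3w h2qk
    h2qkN E1 E2 (by linarith) le_rfl
  -- stage 2
  obtain ⟨σ2, mS, hσ2, hmS, hprS⟩ := hS' N p w k (q - w) bb r (modl N l) (by omega) hck hkc hBE
    hSep (dt4_res hL2 hBE.card hwl hql)
  -- stage 3
  obtain ⟨z0, z1, R0, R1, hz⟩ := hH' N p k bb (by omega) hck hkc hBE.bl hSep hBE.card
  have hm1pos : (0 : ℝ) < m1 := by
    have h1 : 0 < (N : ℝ) ^ 2 / L ^ 200 := by positivity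
    have h2 : 0 < t := by linarith
    rw [hm1]
    positivity
  obtain ⟨σ3, mJ, hσ3, hmJ, hprJ⟩ := hJ' N p w k m1 bb (hz0 N p k bb) (hz1 N p k bb) r (modl N l)
    (by omega) hBE z0 z1 hk R0 R1 (fun i hi => (hz i hi).1) (by
      intro i hi1 hip
      refine ⟨?_, hcap i hi1 hip⟩
      have h1 := hCU' N k (bb i) w m1 r l (by omega) hck hkc hE.adm hGE (hBE.slow i hi1 hip)
        (hSep i hi1 hip) hpr ht1 ht2
      refine le_trans ?_ h1
      have h2 := (hz i (by omega)).2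
      apply div_le_div_of_nonneg_right _ hm1pos.le
      apply mul_le_mul_of_nonneg_right _ (Nat.cast_nonneg _)
      apply mul_le_mul_of_nonneg_left h2 (by linarith)) ht1 ht2
  have hN5 : 0 ≤ (N : ℝ) ^ (-5 : ℝ) := Real.rpow_nonneg hNpos.le _
  have hN3 : 0 ≤ (N : ℝ) ^ (-3 : ℝ) := Real.rpow_nonneg hNpos.le _
  have hst := dt4_stages (N := N) (k := k) (m1 := mT) (m2 := mS) (m3 := mJ) (r := r) (l := l)
    (l' := modl N l) (σ1 := σ1) (σ2 := σ2) (σ3 := σ3) (a := 2 * (N : ℝ) ^ (-5 : ℝ))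
    (b := (N : ℝ) ^ (-5 : ℝ)) (c := (N : ℝ) ^ (-3 : ℝ))
    (A := {ξ | ∀ y, y ≤ N → min k (min (N - y) ((k - y) + (q - w))) ≤ ht ξ y})
    (B := Up k (Wcl N p bb (hz0 N p k bb) ∅ 0)) (G := Up k (Wcl N p bb (hz1 N p k bb) ∅ 0))
    (z := zet N 0 N (N - k) n) hC hR hk hE.adm hGE.adm hmodl hσ1 hσ2 hσ3 hN5 hN3 hprT
    (fun ξ h1 h2 => hprS ξ h1 h2) (fun ξ _ h2 => hprJ ξ h2)
    (fun ξ h1 => hZ' N p k bb (by omega) hck hkc hBE.bl hSep hBE.card ξ h1)
  obtain ⟨g1, g2, g3, g4⟩ := hG' N k r l w m0 η0 as Cs C1 c1 (ε / 32) (by omega) hη hE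
  have hN53 : (N : ℝ) ^ (-5 : ℝ) ≤ (N : ℝ) ^ (-3 : ℝ) :=
    Real.rpow_le_rpow_of_exponent_le hN1 (by norm_num)
  have key := hF' N k r l (modl N l) 0 N w n (mT + (mS + mJ)) (as + 1) el
    (2 * (N : ℝ) ^ (-5 : ℝ) + ((N : ℝ) ^ (-5 : ℝ) + (N : ℝ) ^ (-3 : ℝ))) (by omega) hk hE.adm g1
    hmodl hE.m0w hn1 (by omega) (by omega) (by linarith) le_rfl (by linarith) hE.loc
    (by linarith) hst
  set S1 : ℝ := ∑ y ∈ Finset.Ico 0 (N - k), atl r (modl N l) η0 w y with hS1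
  set S2 : ℝ := ∑ y ∈ Finset.Ico (N - N) k, atl (mirr N r) (mirr N (modl N l)) η0 w y with hS2
  have hmax : max S1 S2 ≤ (C1 + 1) * N := max_le g3 g4
  -- durations
  have d1 : (mT : ℝ) ≤ dd * (t * (2 * N)) := by
    refine dt4_trans (L := L) (Nr := (N : ℝ)) (g := g) (C := C1) (q := (q : ℝ)) (el := el)
      (S := ∑ y ∈ Finset.range (N - 1), (atl r (modl N l) η0 w y +
        atl (mirr N r) (mirr N (modl N l)) η0 w y)) (t := t) (dd := dd) (K := K0)
      hL1 hN1 hC1 hdd0 hNg ?_ hqu hel0 helg ht1 hmT (by linarith) hKg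
    rw [Finset.sum_add_distrib]
    linarith
  have d2 : (mS : ℝ) ≤ dd * (t * (2 * N)) := by
    refine dt4_st0 (L := L) (Nr := (N : ℝ)) (t := t) (dd := dd) (ta := (ta3 N : ℝ)) (K := K0)
      hL1 hN1 hdd0 ?_ ?_ ht1 (by linarith) (by linarith) hKN
    · unfold ta3 th3
      exact (Nat.ceil_lt_add_one (by positivity)).le
    · exact_mod_cast hmS
  have d3 : 2 * (N : ℝ) * (16 * (max S1 S2 + (3 * n + 5) * el) + Cf) ≤ dd * (t * (2 * N)) :=
    dt4_fin (L := L) (Nr := (N : ℝ)) (g := g) (C := C1) (Cf := Cf) (n := (n : ℝ)) (el := el)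
      (S := max S1 S2) (t := t) (dd := dd) (K := K0) hL1 hN1 hC1 hCf hdd0 hNg hmax hnu hel0 helg
      ht1 (by linarith) hKg
  rw [← hm1] at d1 d2 d3
  have hceil : mT + (mS + mJ) + ⌈2 * (N : ℝ) * (16 * (max S1 S2 + (3 * n + 5) * el) + Cf)⌉₊ ≤
      ⌈(1 + δ) * (m1 : ℝ)⌉₊ := by
    have h0 : 0 ≤ 2 * (N : ℝ) * (16 * (max S1 S2 + (3 * n + 5) * el) + Cf) := by
      have : 0 ≤ max S1 S2 := by
        refine le_trans ?_ (le_max_left _ _)
        rw [hS1]
        apply Finset.sum_nonneg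
        intro y hy
        unfold atl
        apply Finset.sum_nonneg
        intro d _
        unfold RR
        have hyN : y < N - k := (Finset.mem_Ico.1 hy).2
        have hp : 0 ≤ ∏ b ∈ Finset.Ioc (y - d) y, modl N l b / r b := by
          apply Finset.prod_nonneg
          intro b hb
          exact div_nonneg (hGE.pos b).2 (hGE.pos b).1.le
        have hr : 0 < r (y + 1) := (hGE.pos (y + 1)).1
        positivity
      positivity
    rw [add_comm, ← Nat.ceil_add_natCast h0]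
    apply Nat.ceil_mono
    push_cast
    have h1 : 23 * dd * m1 ≤ δ * m1 := by
      apply mul_le_mul_of_nonneg_right _ hm1pos.le
      rw [hdd]
      linarith
    linarith
  have hanti := dt4_nohit_anti hE.adm (full N) {top N k} (bot N k) hceil
  refine hanti.trans (key.trans ?_)
  linarith

end Pool.Agent.Helper98.EX
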