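import Pool.Agent.Helper98.EY.StmtsB
import Pool.Agent.Helper95.EX.EXCH

/-! # EXG: the largest value of a local functional is attained in the bulk -/

set_option autoImplicit false

namespace Pool.Agent.Helper98.EX

open Finset MeasureTheory ProbabilityTheory Filter
open scoped Topology

/-- the block `j` contains a value exceeding those in the other blocks -/
def exg_F (F : (ℕ → ℝ) → ℝ) (L R : ℕ) (I : Finset ℕ) (j : ℕ) : Set (ℕ → ℝ) :=
  {e | ∃ a ∈ Finset.range (L + 1), a + R ≤ L ∧ ∀ i ∈ I, i ≠ j → ∀ b ∈ Finset.range (L + 1),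
    b + R ≤ L → F (fun n => e (i * L + b + n)) < F (fun n => e (j * L + a + n))}

theorem exg_F_meas {F : (ℕ → ℝ) → ℝ} (hF : Measurable F) (L R : ℕ) (I : Finset ℕ) (j : ℕ) :
    MeasurableSet (exg_F F L R I j) := by
  have h : exg_F F L R I j = ⋃ a ∈ Finset.range (L + 1), ⋃ (_ : a + R ≤ L), ⋂ i ∈ I,
      ⋂ (_ : i ≠ j), ⋂ b ∈ Finset.range (L + 1), ⋂ (_ : b + R ≤ L),
      {e | F (fun n => e (i * L + b + n)) < F (fun n => e (j * L + a + n))} := by
    ext e
    simp only [exg_F, Set.mem_ofPred_eq, Set.mem_iUnion, Set.mem_iInter, exists_prop]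
  have hm : ∀ c : ℕ, Measurable (fun e : ℕ → ℝ => F (fun n => e (c + n))) := by
    intro c
    exact hF.comp (measurable_pi_iff.2 (fun n => measurable_pi_apply _))
  rw [h]
  refine Finset.measurableSet_biUnion _ (fun a _ => ?_)
  refine MeasurableSet.iUnion (fun _ => ?_)
  refine Finset.measurableSet_biInter _ (fun i _ => ?_)
  refine MeasurableSet.iInter (fun _ => ?_)
  refine Finset.measurableSet_biInter _ (fun b _ => ?_)
  refine MeasurableSet.iInter (fun _ => ?_)
  exact measurableSet_lt (hm _) (hm _)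

theorem exg_F_disj (F : (ℕ → ℝ) → ℝ) (L R : ℕ) (I : Finset ℕ) {j j' : ℕ} (hj : j ∈ I)
    (hj' : j' ∈ I) (hne : j ≠ j') : Disjoint (exg_F F L R I j) (exg_F F L R I j') := by
  rw [Set.disjoint_left]
  rintro e ⟨a, ha, haR, h1⟩ ⟨b, hb, hbR, h2⟩
  exact lt_asymm (h1 j' hj' hne.symm b hb hbR) (h2 j hj hne a ha haR)

theorem exg_F_swap {F : (ℕ → ℝ) → ℝ} {L R : ℕ}
    (hF : ∀ e e' : ℕ → ℝ, (∀ i, i < R → e i = e' i) → F e = F e') {I : Finset ℕ} {j j' : ℕ}
    (hj : j ∈ I) (hj' : j' ∈ I)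
    (e : ℕ → ℝ) : (fun n => e (exg L j j' n)) ∈ exg_F F L R I j ↔ e ∈ exg_F F L R I j' := by
  have hb : ∀ i a, a + R ≤ L → F (fun n => e (exg L j j' (i * L + a + n))) =
      F (fun n => e (exs j j' i * L + a + n)) := by
    intro i a ha
    refine hF _ _ (fun n hn => ?_)
    have h1 : i * L + a + n = i * L + (a + n) := by ring
    rw [h1, exch_g_at (by omega), ← add_assoc]
  have hs : ∀ i ∈ I, exs j j' i ∈ I := by
    intro i hi
    unfold exs
    split_ifs
    · exact hj'
    · exact hj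
    · exact hi
  have hsj : exs j j' j = j' := by unfold exs; simp
  constructor
  · rintro ⟨a, ha, haR, h⟩
    refine ⟨a, ha, haR, fun i hi hij b hb' hbR => ?_⟩
    have h1 := h (exs j j' i) (hs i hi) (fun e' => hij (by
      rw [← exch_s_inv j j' i, e', hsj])) b hb' hbR
    rw [hb _ _ hbR, hb _ _ haR, exch_s_inv, hsj] at h1
    exact h1
  · rintro ⟨a, ha, haR, h⟩
    refine ⟨a, ha, haR, fun i hi hij b hb' hbR => ?_⟩
    show F (fun n => e (exg L j j' (i * L + b + n))) < F (fun n => e (exg L j j' (j * L + a + n)))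
    rw [hb _ _ hbR, hb _ _ haR, hsj]
    refine h _ (hs i hi) (fun e' => hij ?_) b hb' hbR
    have h1 := congrArg (exs j j') e'
    rw [exch_s_inv] at h1
    have h2 := exch_s_inv j j' j
    rw [hsj] at h2
    exact h1.trans h2

theorem exg_F_le {Ω : Type} [MeasurableSpace Ω] {P : Measure Ω} {X : ℕ → Ω → ℝ}
    (h : IIDE P X) {F : (ℕ → ℝ) → ℝ} (hFm : Measurable F) {L R : ℕ}
    (hF : ∀ e e' : ℕ → ℝ, (∀ i, i < R → e i = e' i) → F e = F e') (hL : 0 < L)
    (I : Finset ℕ) {j : ℕ} (hj : j ∈ I) :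
    (I.card : ENNReal) * P {ω | (fun n => X n ω) ∈ exg_F F L R I j} ≤ 1 := by
  have := h.prob
  have hm : Measurable (fun ω n => X n ω) := measurable_pi_iff.2 h.meas
  have h1 : ∀ j' ∈ I, P {ω | (fun n => X n ω) ∈ exg_F F L R I j'} =
      P {ω | (fun n => X n ω) ∈ exg_F F L R I j} := by
    intro j' hj'
    have h2 := exch_law h (exch_g_inj hL j j') (exg_F_meas hFm L R I j)
    rw [← h2]
    congr 1
    ext ω
    exact (exg_F_swap hF hj hj' (fun n => X n ω)).symm
  have h2 : ∑ j' ∈ I, P {ω | (fun n => X n ω) ∈ exg_F F L R I j'} =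
      (I.card : ENNReal) * P {ω | (fun n => X n ω) ∈ exg_F F L R I j} := by
    rw [Finset.sum_congr rfl h1, Finset.sum_const, nsmul_eq_mul]
  rw [← h2, ← measure_biUnion_finset]
  · exact prob_le_one
  · intro a ha b hb hab
    have := exg_F_disj F L R I ha hb hab
    exact Disjoint.preimage (fun ω n => X n ω) this
  · intro a _
    exact hm (exg_F_meas hFm L R I a)

/-- boundary starting points -/
def exg_B (M L N R : ℕ) : Finset ℕ :=
  (Finset.range M).biUnion (fun i => Finset.Ico ((i + 1) * L - R) ((i + 1) * L)) ∪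
    Finset.Ico (M * L) (N + 1)

theorem exg_B_card (M L N R : ℕ) (h : N < M * L + M) : (exg_B M L N R).card ≤ M * (R + 1) := by
  unfold exg_B
  refine (Finset.card_union_le _ _).trans ?_
  have h1 : ((Finset.range M).biUnion
      (fun i => Finset.Ico ((i + 1) * L - R) ((i + 1) * L))).card ≤ M * R := by
    refine Finset.card_biUnion_le.trans ?_
    calc ∑ i ∈ Finset.range M, (Finset.Ico ((i + 1) * L - R) ((i + 1) * L)).card
        ≤ ∑ _i ∈ Finset.range M, R := by
          refine Finset.sum_le_sum (fun i _ => ?_)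
          rw [Nat.card_Ico]
          omega
      _ = M * R := by rw [Finset.sum_const, Finset.card_range, smul_eq_mul]
  have h2 : (Finset.Ico (M * L) (N + 1)).card ≤ M := by
    rw [Nat.card_Ico]
    omega
  calc _ ≤ M * R + M := Nat.add_le_add h1 h2
    _ = M * (R + 1) := by ring

/-- alternatives for a large value -/
theorem exg_alt {e : ℕ → ℝ} {F : (ℕ → ℝ) → ℝ} {M L N R : ℕ} {c2 v0 : ℝ} (hM : 2 ≤ M)
    (hL : 0 < L) (hc2 : c2 * N ≤ L) (hc2' : ((M - 1 : ℕ) : ℝ) * L ≤ (1 - c2) * N)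
    {z : ℕ} (hz : z + R ≤ N) (hv : v0 < F (fun i => e (z + i)))
    (hno : ¬ ∃ z' : ℕ, c2 * N ≤ z' ∧ (z' : ℝ) + R ≤ (1 - c2) * N ∧
      F (fun i => e (z + i)) ≤ F (fun i => e (z' + i))) :
    (∃ s ∈ exg_B M L N R, v0 < F (fun i => e (s + i))) ∨
      e ∈ exg_F F L R (Finset.range (M - 1)) 0 ∨
      e ∈ exg_F F L R (Finset.Ico 1 M) (M - 1) := by
  by_cases h1 : M * L ≤ z
  · left
    refine ⟨z, ?_, hv⟩
    unfold exg_B
    exact Finset.mem_union_right _ (Finset.mem_Ico.2 ⟨h1, by omega⟩)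
  · have hdm := Nat.div_add_mod z L
    have hml := Nat.mod_lt z hL
    obtain ⟨i, hi⟩ : ∃ i, i = z / L := ⟨_, rfl⟩
    rw [← hi] at hdm
    have hiM : i < M := by
      rw [hi, Nat.div_lt_iff_lt_mul hL]
      omega
    have hiL : i * L ≤ z := by rw [mul_comm]; omega
    have hiL' : z < (i + 1) * L := by rw [add_mul, one_mul, mul_comm]; omega
    by_cases h2 : (i + 1) * L < z + R
    · left
      refine ⟨z, ?_, hv⟩
      unfold exg_B
      refine Finset.mem_union_left _ (Finset.mem_biUnion.2 ⟨i, Finset.mem_range.2 hiM, ?_⟩)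
      rw [Finset.mem_Ico]
      omega
    · right
      have hbulk : ∀ i', 1 ≤ i' → i' + 2 ≤ M → ∀ b, b + R ≤ L →
          F (fun n => e (i' * L + b + n)) < F (fun n => e (z + n)) := by
        intro i' h3 h4 b hb
        by_contra hcon
        rw [not_lt] at hcon
        apply hno
        refine ⟨i' * L + b, ?_, ?_, hcon⟩
        · refine hc2.trans ?_
          have : L ≤ i' * L + b := by nlinarith
          exact_mod_cast this
        · refine le_trans ?_ hc2'
          have : i' * L + b + R ≤ (M - 1) * L := by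
            have h5 : (i' + 1) * L ≤ (M - 1) * L := Nat.mul_le_mul_right L (by omega)
            rw [add_mul, one_mul] at h5
            omega
          exact_mod_cast this
      have haR : (z - i * L) + R ≤ L := by
        rw [add_mul, one_mul] at h2
        omega
      have haW : z - i * L ∈ Finset.range (L + 1) := by
        rw [Finset.mem_range]
        omega
      have haV : F (fun n => e (i * L + (z - i * L) + n)) = F (fun n => e (z + n)) := by
        have e1 : i * L + (z - i * L) = z := by omega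
        rw [e1]
      rcases Nat.eq_zero_or_pos i with h0 | h0
      · left
        rw [h0] at haW haV haR
        refine ⟨_, haW, haR, fun i' hi' hne b hb hbR => ?_⟩
        rw [Finset.mem_range] at hi'
        rw [haV]
        exact hbulk i' (by omega) (by omega) b hbR
      · rcases Nat.lt_or_ge (i + 1) M with h3 | h3
        · have h5 := hbulk i h0 (by omega) _ haR
          rw [haV] at h5
          exact absurd h5 (lt_irrefl _)
        · right
          have h4 : i = M - 1 := by omega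
          rw [h4] at haW haV haR
          refine ⟨_, haW, haR, fun i' hi' hne b hb hbR => ?_⟩
          rw [Finset.mem_Ico] at hi'
          rw [haV]
          exact hbulk i' hi'.1 (by omega) b hbR

theorem exg_lim (K γ : ℝ) (hγ : 0 < γ) :
    Tendsto (fun N : ℕ => K * ((Real.log N ^ 9 + 1) * (N : ℝ) ^ (-γ))) atTop (𝓝 0) := by
  have h1 : Tendsto (fun N : ℕ => Real.log N ^ 9 / (N : ℝ) ^ γ) atTop (𝓝 0) := by
    have h2 := (isLittleO_log_rpow_rpow_atTop ((9 : ℕ) : ℝ) hγ).tendsto_div_nhds_zero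
    have h3 := h2.comp tendsto_natCast_atTop_atTop
    refine h3.congr (fun N => ?_)
    simp only [Function.comp, Real.rpow_natCast]
  have h0 : Tendsto (fun N : ℕ => 1 / (N : ℝ) ^ γ) atTop (𝓝 0) := by
    have h2 := (tendsto_rpow_atTop hγ).comp tendsto_natCast_atTop_atTop
    have h3 := h2.inv_tendsto_atTop
    refine h3.congr (fun N => ?_)
    simp only [Function.comp, Pi.inv_apply, one_div]
  have h2 := (h1.add h0).const_mul K
  simp only [mul_zero, add_zero] at h2
  refine h2.congr (fun N => ?_)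
  rw [Real.rpow_neg (Nat.cast_nonneg N)]
  ring

theorem st_EXG : ST_EXG := by
  intro Ω _ P X hI ηp hηp
  obtain ⟨M, hM2, hMη⟩ : ∃ M : ℕ, 2 ≤ M ∧ 4 / ηp ≤ ((M - 1 : ℕ) : ℝ) := by
    refine ⟨⌈4 / ηp⌉₊ + 2, by omega, ?_⟩
    have h1 := Nat.le_ceil (4 / ηp)
    have h2 : ((⌈4 / ηp⌉₊ + 2 - 1 : ℕ) : ℝ) = (⌈4 / ηp⌉₊ : ℝ) + 1 := by
      have : ⌈4 / ηp⌉₊ + 2 - 1 = ⌈4 / ηp⌉₊ + 1 := by omega
      rw [this]
      push_cast
      ring
    rw [h2]
    linarith
  have hM0 : (2 : ℝ) ≤ M := by exact_mod_cast hM2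
  refine ⟨1 / (4 * M), by positivity, ?_, fun γ hγ => ?_⟩
  · rw [div_lt_div_iff₀ (by positivity) (by norm_num)]
    linarith
  have hlim := exg_lim M γ hγ
  obtain ⟨N0, hN0⟩ := Filter.eventually_atTop.1 ((tendsto_order.1 hlim).2 (ηp / 2) (by positivity))
  refine ⟨max N0 (4 * M), fun N R F v0 hN hR hFm hF hv0 => ?_⟩
  have hNN0 : N0 ≤ N := le_trans (le_max_left _ _) hN
  have hN4 : 4 * M ≤ N := le_trans (le_max_right _ _) hN
  have hNpos : 0 < N := by omega
  have hNr : (0 : ℝ) < N := by exact_mod_cast hNpos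
  obtain ⟨L, hLdef⟩ : ∃ L, L = N / M := ⟨_, rfl⟩
  have hL : 0 < L := by
    rw [hLdef]
    exact Nat.div_pos (by omega) (by omega)
  have hML : M * L ≤ N := by
    rw [hLdef]
    exact Nat.mul_div_le N M
  have hNML : N < M * L + M := by
    have h1 := Nat.div_add_mod N M
    have h2 := Nat.mod_lt N (show 0 < M by omega)
    rw [← hLdef] at h1
    omega
  have hNMLr : (N : ℝ) < M * L + M := by exact_mod_cast hNML
  have hMLr : (M : ℝ) * L ≤ N := by exact_mod_cast hML
  have hN4r : (4 : ℝ) * M ≤ N := by exact_mod_cast hN4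
  have hc2 : 1 / (4 * (M : ℝ)) * N ≤ L := by
    rw [one_div, inv_mul_le_iff₀ (by positivity)]
    nlinarith
  have hMr : ((M - 1 : ℕ) : ℝ) = (M : ℝ) - 1 := by
    rw [Nat.cast_sub (by omega)]
    simp
  have hc2' : ((M - 1 : ℕ) : ℝ) * L ≤ (1 - 1 / (4 * (M : ℝ))) * N := by
    rw [hMr]
    have h1 : ((M : ℝ) - 1) * L ≤ N - L := by nlinarith
    nlinarith
  have hsub : {ω | ∃ z : ℕ, z + R ≤ N ∧ v0 < F (fun i => X (z + i) ω) ∧
      ¬ ∃ z' : ℕ, 1 / (4 * (M : ℝ)) * N ≤ z' ∧ (z' : ℝ) + R ≤ (1 - 1 / (4 * (M : ℝ))) * N ∧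
        F (fun i => X (z + i) ω) ≤ F (fun i => X (z' + i) ω)} ⊆
      (⋃ s ∈ exg_B M L N R, {ω | v0 < F (fun i => X (s + i) ω)}) ∪
        ({ω | (fun n => X n ω) ∈ exg_F F L R (Finset.range (M - 1)) 0} ∪
          {ω | (fun n => X n ω) ∈ exg_F F L R (Finset.Ico 1 M) (M - 1)}) := by
    rintro ω ⟨z, h1, h2, h3⟩
    rcases exg_alt (e := fun n => X n ω) hM2 hL hc2 hc2' h1 h2 h3 with ⟨s, hs, h4⟩ | h4 | h4
    · left
      simp only [Set.mem_iUnion, exists_prop]
      exact ⟨s, hs, h4⟩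
    · exact Or.inr (Or.inl h4)
    · exact Or.inr (Or.inr h4)
  have hshift : ∀ s : ℕ, P {ω | v0 < F (fun i => X (s + i) ω)} ≤
      ENNReal.ofReal ((N : ℝ) ^ (-γ)) := by
    intro s
    have hS : MeasurableSet {e : ℕ → ℝ | v0 < F e} := measurableSet_lt measurable_const hFm
    have h1 := exch_law hI (g := fun i => s + i) (fun a b h => Nat.add_left_cancel h) hS
    have h2 : P {ω | v0 < F (fun i => X (s + i) ω)} = P {ω | v0 < F (fun i => X i ω)} := h1
    rw [h2]
    exact hv0
  have hE : P (⋃ s ∈ exg_B M L N R, {ω | v0 < F (fun i => X (s + i) ω)}) ≤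
      ENNReal.ofReal (ηp / 2) := by
    have h1 : P (⋃ s ∈ exg_B M L N R, {ω | v0 < F (fun i => X (s + i) ω)}) ≤
        ENNReal.ofReal (M * ((R + 1) * (N : ℝ) ^ (-γ))) := by
      calc _ ≤ ∑ s ∈ exg_B M L N R, P {ω | v0 < F (fun i => X (s + i) ω)} :=
            measure_biUnion_finset_le _ _
        _ ≤ ∑ s ∈ exg_B M L N R, ENNReal.ofReal ((N : ℝ) ^ (-γ)) :=
            Finset.sum_le_sum (fun s _ => hshift s)
        _ = ((exg_B M L N R).card : ENNReal) * ENNReal.ofReal ((N : ℝ) ^ (-γ)) := by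
            rw [Finset.sum_const, nsmul_eq_mul]
        _ ≤ ((M * (R + 1) : ℕ) : ENNReal) * ENNReal.ofReal ((N : ℝ) ^ (-γ)) := by
            gcongr
            exact exg_B_card M L N R hNML
        _ = ENNReal.ofReal (M * ((R + 1) * (N : ℝ) ^ (-γ))) := by
            rw [← ENNReal.ofReal_natCast, ← ENNReal.ofReal_mul (Nat.cast_nonneg _)]
            congr 1
            push_cast
            ring
    refine h1.trans ?_
    apply ENNReal.ofReal_le_ofReal
    refine le_trans ?_ (hN0 N hNN0).le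
    have h2 : (0 : ℝ) ≤ (N : ℝ) ^ (-γ) := Real.rpow_nonneg hNr.le _
    apply mul_le_mul_of_nonneg_left _ (by positivity)
    apply mul_le_mul_of_nonneg_right _ h2
    linarith
  have hFb : ∀ (I : Finset ℕ) (j : ℕ), j ∈ I → I.card = M - 1 →
      P {ω | (fun n => X n ω) ∈ exg_F F L R I j} ≤ ENNReal.ofReal (ηp / 4) := by
    intro I j hj hc
    have h1 := exg_F_le hI hFm hF hL I hj
    rw [hc] at h1
    have hpos : (0 : ℝ) < ((M - 1 : ℕ) : ℝ) := lt_of_lt_of_le (by positivity) hMη
    have h2 : P {ω | (fun n => X n ω) ∈ exg_F F L R I j} ≤ 1 / ((M - 1 : ℕ) : ENNReal) := by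
      rw [ENNReal.le_div_iff_mul_le, mul_comm]
      · exact h1
      · left
        have : (M - 1 : ℕ) ≠ 0 := by
          intro h0
          rw [h0] at hpos
          simp at hpos
        exact_mod_cast this
      · left
        exact ENNReal.natCast_ne_top _
    refine h2.trans ?_
    rw [← ENNReal.ofReal_natCast, ← ENNReal.ofReal_one, ← ENNReal.ofReal_div_of_pos hpos]
    apply ENNReal.ofReal_le_ofReal
    rw [div_le_div_iff₀ hpos (by norm_num)]
    rw [div_le_iff₀ hηp] at hMη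
    linarith
  calc _ ≤ P ((⋃ s ∈ exg_B M L N R, {ω | v0 < F (fun i => X (s + i) ω)}) ∪
        ({ω | (fun n => X n ω) ∈ exg_F F L R (Finset.range (M - 1)) 0} ∪
          {ω | (fun n => X n ω) ∈ exg_F F L R (Finset.Ico 1 M) (M - 1)})) := measure_mono hsub
    _ ≤ ENNReal.ofReal (ηp / 2) + (ENNReal.ofReal (ηp / 4) + ENNReal.ofReal (ηp / 4)) := by
        refine (measure_union_le _ _).trans (add_le_add hE ?_)
        refine (measure_union_le _ _).trans (add_le_add ?_ ?_)
        · exact hFb _ _ (Finset.mem_range.2 (by omega)) (Finset.card_range _)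
        · exact hFb _ _ (Finset.mem_Ico.2 (by omega)) (Nat.card_Ico _ _)
    _ = ENNReal.ofReal ηp := by
        rw [← ENNReal.ofReal_add (by positivity) (by positivity),
          ← ENNReal.ofReal_add (by positivity) (by positivity)]
        congr 1
        ring

end Pool.Agent.Helper98.EX
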