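import Mathlib
import Pool.Agent.Helper98.EY.StmtsB

set_option autoImplicit false

namespace Pool.Agent.Helper98.EX

open Finset

lemma nop2_RR_mul (r l : ℕ → ℝ) (z y x : ℕ) (h1 : z ≤ y) (h2 : y ≤ x) :
    RR r l z x = RR r l z y * RR r l y x := by
  unfold RR
  exact (Finset.prod_Ioc_consecutive _ h1 h2).symm

lemma nop2_RR_nonneg (r l : ℕ → ℝ) (hp : ∀ x, 0 < r x ∧ 0 ≤ l x) (z x : ℕ) : 0 ≤ RR r l z x := by
  unfold RR
  exact Finset.prod_nonneg (fun b _ => div_nonneg (hp b).2 (hp b).1.le)

lemma nop2_RR_self (r l : ℕ → ℝ) (z : ℕ) : RR r l z z = 1 := by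
  unfold RR
  simp

lemma nop2_RR_succ (r l : ℕ → ℝ) (y : ℕ) : RR r l y (y + 1) = l (y + 1) / r (y + 1) := by
  unfold RR
  have : Finset.Ioc y (y + 1) = {y + 1} := by
    ext t
    simp only [Finset.mem_Ioc, Finset.mem_singleton]
    omega
  rw [this, Finset.prod_singleton]

theorem st_NOP2 : ST_NOP2 := by
  intro N w r l C1 κ θ hG hC hκ hκθ hP2 hP3 a z y b ha haz hzy hyb hbN hba hcon
  obtain ⟨hu, hv⟩ := hcon
  have hθ : 0 < θ := lt_trans hκ hκθ
  have hpos := hG.pos
  have hlog : 1 ≤ Real.log N := by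
    by_contra hlt
    push Not at hlt
    have hw : (1 : ℝ) ≤ w := by exact_mod_cast hG.w1
    have h1 := hG.wlog
    have h0 : 0 ≤ Real.log N := Real.log_natCast_nonneg N
    nlinarith
  have hN3 : 3 ≤ N := by
    by_contra hlt
    have hN : N ≤ 2 := by omega
    have h1 : Real.log N ≤ Real.log 2 := by
      rcases Nat.eq_zero_or_pos N with h0 | h0
      · subst h0
        simp only [Nat.cast_zero, Real.log_zero]
        exact Real.log_nonneg (by norm_num)
      · exact Real.log_le_log (by exact_mod_cast h0) (by exact_mod_cast hN)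
    have h2 : Real.log 2 < 1 := by
      have := Real.log_two_lt_d9
      linarith
    linarith
  have hvh : ∀ s t, 0 ≤ vh r l s t := fun s t =>
    div_nonneg (nop2_RR_nonneg r l hpos s t) (hpos s).1.le
  have hvp : ∀ s t, 0 ≤ vp r l s t := fun s t =>
    div_nonneg (nop2_RR_nonneg r l hpos s t) (hpos (t + 1)).1.le
  by_cases hzy' : z ≤ y
  · have h1 := hG.hp a z y b ha haz hzy' hyb hbN hba
    have h2 : θ ^ 2 < vh r l a z * vp r l y b := by nlinarith
    linarith
  have hzy1 : z = y + 1 := by omega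
  have hL8 : (0 : ℝ) ≤ Real.log N ^ 8 := by positivity
  -- z = a is impossible
  have haz' : a ≠ z := by
    intro haz2
    subst haz2
    by_cases haN : a + 1 < N
    · obtain ⟨y', h1, h2, h3, h4⟩ := hC a a ha le_rfl haN (by linarith)
      have : y' = a := le_antisymm h2 h1
      subst this
      linarith
    · have hy1 : 1 ≤ y := by omega
      obtain ⟨y', h1, h2, h3, h4⟩ := hC y y hy1 le_rfl (by omega) (by linarith)
      have : y' = y := le_antisymm h2 h1
      subst this
      unfold vp at h3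
      unfold vh at hu
      rw [nop2_RR_self] at h3 hu
      rw [hzy1] at hu
      linarith
  have hay : a ≤ y := by omega
  have hρ : RR r l y z ≤ κ := by
    obtain ⟨y', h1, h2, h3, h4⟩ := hC y y (by omega) le_rfl (by omega) (by linarith)
    have : y' = y := le_antisymm h2 h1
    subst this
    unfold vp at h3
    rw [nop2_RR_self] at h3
    rw [hzy1, nop2_RR_succ]
    have hadm := hG.adm (y' + 1) (by omega) (by omega)
    refine le_trans ?_ h3
    exact div_le_div_of_nonneg_right hadm.2.2.2 hadm.1.le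
  have hρ0 : 0 ≤ RR r l y z := nop2_RR_nonneg r l hpos y z
  obtain ⟨ys, h1, h2, h3, h4⟩ := hC a b ha (le_trans hay hyb) hbN hba
  by_cases hys : z ≤ ys
  · have hR0 : 0 ≤ RR r l z ys := nop2_RR_nonneg r l hpos z ys
    have e1 : vh r l a ys = vh r l a z * RR r l z ys := by
      unfold vh
      rw [nop2_RR_mul r l a z ys haz hys]
      ring
    have e2 : vp r l y b = RR r l y z * (RR r l z ys * vp r l ys b) := by
      unfold vp
      rw [nop2_RR_mul r l y z b (by omega) (by omega), nop2_RR_mul r l z ys b hys h2]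
      ring
    have e3 := hG.hp a z ys b ha haz hys h2 hbN hba
    rw [e1] at h4
    have hu0 := hvh a z
    have hw0 := hvp ys b
    have e4 : vp r l y b * vh r l a z ^ 2 =
        RR r l y z * ((vh r l a z * RR r l z ys) * (vh r l a z * vp r l ys b)) := by
      rw [e2]
      ring
    have e5 : (vh r l a z * RR r l z ys) * (vh r l a z * vp r l ys b) ≤
        κ * (N * Real.log N ^ 25) :=
      mul_le_mul h4 e3 (mul_nonneg hu0 hw0) hκ.le
    have e6 : RR r l y z * ((vh r l a z * RR r l z ys) * (vh r l a z * vp r l ys b)) ≤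
        κ * (κ * (N * Real.log N ^ 25)) :=
      mul_le_mul hρ e5 (mul_nonneg (mul_nonneg hu0 hR0) (mul_nonneg hu0 hw0)) hκ.le
    have e7 : θ ^ 3 ≤ vp r l y b * vh r l a z ^ 2 := by
      have f1 : θ ^ 2 ≤ vh r l a z ^ 2 := pow_le_pow_left₀ hθ.le hu.le 2
      calc θ ^ 3 = θ * θ ^ 2 := by ring
        _ ≤ vp r l y b * vh r l a z ^ 2 :=
          mul_le_mul hv.le f1 (by positivity) (hvp y b)
    rw [e4] at e7
    have e8 : κ * (κ * (N * Real.log N ^ 25)) = N * Real.log N ^ 25 * κ ^ 2 := by ring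
    rw [e8] at e6
    linarith
  · have hys' : ys ≤ y := by omega
    have hR0 : 0 ≤ RR r l ys y := nop2_RR_nonneg r l hpos ys y
    have e1 : vp r l ys b = RR r l ys y * vp r l y b := by
      unfold vp
      rw [nop2_RR_mul r l ys y b hys' hyb]
      ring
    have e2 : vh r l a z = RR r l y z * (RR r l ys y * vh r l a ys) := by
      unfold vh
      rw [nop2_RR_mul r l a y z hay (by omega), nop2_RR_mul r l a ys y h1 hys']
      ring
    have e3 := hG.hp a ys y b ha h1 hys' hyb hbN hba
    rw [e1] at h3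
    have hv0 := hvp y b
    have hw0 := hvh a ys
    have e4 : vh r l a z * vp r l y b ^ 2 =
        RR r l y z * ((RR r l ys y * vp r l y b) * (vh r l a ys * vp r l y b)) := by
      rw [e2]
      ring
    have e5 : (RR r l ys y * vp r l y b) * (vh r l a ys * vp r l y b) ≤
        κ * (N * Real.log N ^ 25) :=
      mul_le_mul h3 e3 (mul_nonneg hw0 hv0) hκ.le
    have e6 : RR r l y z * ((RR r l ys y * vp r l y b) * (vh r l a ys * vp r l y b)) ≤
        κ * (κ * (N * Real.log N ^ 25)) :=
      mul_le_mul hρ e5 (mul_nonneg (mul_nonneg hR0 hv0) (mul_nonneg hw0 hv0)) hκ.le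
    have e7 : θ ^ 3 ≤ vh r l a z * vp r l y b ^ 2 := by
      have f1 : θ ^ 2 ≤ vp r l y b ^ 2 := pow_le_pow_left₀ hθ.le hv.le 2
      calc θ ^ 3 = θ * θ ^ 2 := by ring
        _ ≤ vh r l a z * vp r l y b ^ 2 :=
          mul_le_mul hu.le f1 (by positivity) (hvh a z)
    rw [e4] at e7
    have e8 : κ * (κ * (N * Real.log N ^ 25)) = N * Real.log N ^ 25 * κ ^ 2 := by ring
    rw [e8] at e6
    linarith

end Pool.Agent.Helper98.EX
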